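import Pool.Agent.MBX.Stmts

/-!
# SNF: wave functions are jointly continuous, of polynomial growth and of bounded support.
-/

set_option autoImplicit false

open MeasureTheory Complex ProbabilityTheory

namespace Pool.Agent.MBX.H64

open Pool.Agent.MBX
open Pool.Agent.Helper49_Pauli
open Pool.Agent.Loc (γn PB)

variable {ι : Type} [Fintype ι] [DecidableEq ι]

/-- The complex version of `NF`. -/
def NFCx (q : (ι → ℝ) → X3 → ℂ) : Prop :=
  (Continuous fun z : (ι → ℝ) × X3 => q z.1 z.2) ∧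
    ∃ (C : ℝ) (m : ℕ) (R : ℝ), 0 ≤ C ∧ ∀ y x, ‖q y x‖ ≤ C * ∏ i, (1 + |y i|) ^ m ∧
      (R ≤ ‖x‖ → q y x = 0)

omit [DecidableEq ι] in
theorem prod_nonneg' (m : ℕ) (y : ι → ℝ) : 0 ≤ ∏ i, (1 + |y i|) ^ m :=
  Finset.prod_nonneg fun i _ => pow_nonneg (by have := abs_nonneg (y i); linarith) m

omit [DecidableEq ι] in
/-- Polynomial growth of polynomials. -/
theorem poly_bound (P : MvPolynomial ι ℂ) :
    ∃ (C : ℝ) (m : ℕ), 0 ≤ C ∧ ∀ y : ι → ℝ,
      ‖MvPolynomial.eval (fun i => ((y i : ℝ) : ℂ)) P‖ ≤ C * ∏ i, (1 + |y i|) ^ m := by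
  classical
  induction P using MvPolynomial.induction_on with
  | C a =>
    refine ⟨‖a‖, 0, norm_nonneg _, fun y => ?_⟩
    simp
  | add p q hp hq =>
    obtain ⟨C, m, hC, hp⟩ := hp
    obtain ⟨C', m', hC', hq⟩ := hq
    refine ⟨C + C', max m m', add_nonneg hC hC', fun y => ?_⟩
    have h1 := Pool.Agent.Loc.prod_mono (le_max_left m m') y
    have h2 := Pool.Agent.Loc.prod_mono (le_max_right m m') y
    rw [map_add]
    refine (norm_add_le _ _).trans ?_
    have h3 := (hp y).trans (mul_le_mul_of_nonneg_left h1 hC)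
    have h4 := (hq y).trans (mul_le_mul_of_nonneg_left h2 hC')
    calc _ ≤ _ := add_le_add h3 h4
      _ = _ := by ring
  | mul_X p i hp =>
    obtain ⟨C, m, hC, hp⟩ := hp
    obtain ⟨-, C', m', hC', hc⟩ := Pool.Agent.Loc.PB.coord (n := ι) i
    refine ⟨C * C', m + m', mul_nonneg hC hC', fun y => ?_⟩
    rw [map_mul, MvPolynomial.eval_X, norm_mul, Complex.norm_real, Real.norm_eq_abs]
    calc _ ≤ (C * ∏ i, (1 + |y i|) ^ m) * (C' * ∏ i, (1 + |y i|) ^ m') :=
          mul_le_mul (hp y) (hc y) (abs_nonneg _) (mul_nonneg hC (prod_nonneg' m y))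
      _ = C * C' * ∏ i, (1 + |y i|) ^ (m + m') := by
          simp only [pow_add, Finset.prod_mul_distrib]
          ring

omit [Fintype ι] [DecidableEq ι] in
theorem poly_cont (P : MvPolynomial ι ℂ) :
    Continuous fun y : ι → ℝ => MvPolynomial.eval (fun i => ((y i : ℝ) : ℂ)) P := by
  induction P using MvPolynomial.induction_on with
  | C a => simp only [MvPolynomial.eval_C]; exact continuous_const
  | add p q hp hq => simp only [map_add]; exact hp.add hq
  | mul_X p i hp =>
    simp only [map_mul, MvPolynomial.eval_X]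
    exact hp.mul (Complex.continuous_ofReal.comp (continuous_apply i))

omit [DecidableEq ι] in
theorem gen_nfcx (P : MvPolynomial ι ℂ) (f : X3 → ℂ) (hf : CS f) : NFCx (Gen P f) := by
  obtain ⟨hs, hc⟩ := hf
  have hfc : Continuous f := hs.continuous
  obtain ⟨C, m, hC, hP⟩ := poly_bound P
  obtain ⟨B, hB⟩ := hfc.bounded_above_of_compact_support hc
  obtain ⟨R, hR⟩ := hc.isCompact.isBounded.subset_closedBall (0 : X3)
  refine ⟨((poly_cont P).comp continuous_fst).mul (hfc.comp continuous_snd),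
    C * B, m, R + 1, mul_nonneg hC ((norm_nonneg (f 0)).trans (hB 0)), fun y x => ⟨?_, ?_⟩⟩
  · unfold Gen
    rw [norm_mul]
    calc _ ≤ (C * ∏ i, (1 + |y i|) ^ m) * B :=
          mul_le_mul (hP y) (hB x) (norm_nonneg _) (mul_nonneg hC (prod_nonneg' m y))
      _ = _ := by ring
  · intro hx
    unfold Gen
    have h0 : f x = 0 := by
      by_contra hne
      have h1 := hR (subset_tsupport f (Function.mem_support.2 hne))
      rw [mem_closedBall_zero_iff] at h1
      linarith
    rw [h0, mul_zero]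

theorem nfcx_of_mem (q : (ι → ℝ) → X3 → ℂ) (hq : q ∈ SS ι) : NFCx q := by
  unfold SS at hq
  induction hq using Submodule.span_induction with
  | mem x hx =>
    obtain ⟨P, f, hf, rfl⟩ := hx
    exact gen_nfcx P f hf
  | zero =>
    refine ⟨continuous_const, 0, 0, 0, le_refl _, fun y x => ⟨?_, fun _ => rfl⟩⟩
    simp
  | add q r _ _ hq hr =>
    obtain ⟨hqc, C, m, R, hC, hq⟩ := hq
    obtain ⟨hrc, C', m', R', hC', hr⟩ := hr
    refine ⟨hqc.add hrc, C + C', max m m', max R R', add_nonneg hC hC', fun y x => ⟨?_, ?_⟩⟩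
    · have h1 := Pool.Agent.Loc.prod_mono (le_max_left m m') y
      have h2 := Pool.Agent.Loc.prod_mono (le_max_right m m') y
      refine (norm_add_le _ _).trans ?_
      have h3 := ((hq y x).1).trans (mul_le_mul_of_nonneg_left h1 hC)
      have h4 := ((hr y x).1).trans (mul_le_mul_of_nonneg_left h2 hC')
      calc _ ≤ _ := add_le_add h3 h4
        _ = _ := by ring
    · intro hx
      have h1 := (hq y x).2 ((le_max_left R R').trans hx)
      have h2 := (hr y x).2 ((le_max_right R R').trans hx)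
      simp only [Pi.add_apply, h1, h2, add_zero]
  | smul a q _ hq =>
    obtain ⟨hqc, C, m, R, hC, hq⟩ := hq
    refine ⟨continuous_const.mul hqc, ‖a‖ * C, m, R, mul_nonneg (norm_nonneg _) hC,
      fun y x => ⟨?_, ?_⟩⟩
    · simp only [Pi.smul_apply, smul_eq_mul, norm_mul]
      calc _ ≤ ‖a‖ * (C * ∏ i, (1 + |y i|) ^ m) :=
            mul_le_mul_of_nonneg_left (hq y x).1 (norm_nonneg _)
        _ = _ := by ring
    · intro hx
      simp only [Pi.smul_apply, smul_eq_mul, (hq y x).2 hx, mul_zero]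

theorem snf : SnfStmt := by
  intro ι _ _ q hq
  obtain ⟨hc, C, m, R, hC, h⟩ := nfcx_of_mem q hq
  refine ⟨⟨Complex.continuous_re.comp hc, C, m, R, hC, fun y x => ⟨?_, ?_⟩⟩,
    ⟨hc.norm, C, m, R, hC, fun y x => ⟨?_, ?_⟩⟩⟩
  · exact (Complex.abs_re_le_norm _).trans (h y x).1
  · intro hx
    simp only [(h y x).2 hx, Complex.zero_re]
  · rw [abs_of_nonneg (norm_nonneg _)]
    exact (h y x).1
  · intro hx
    simp only [(h y x).2 hx, norm_zero]

end Pool.Agent.MBX.H64
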